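import Pool.Agent.Lib.MP_20f220_co.All

/-! The full question Q1, crossing copies allowed, near every convex polygon with at most six
vertices that tiles neither the plane nor, with two or more tiles, a convex octagon. -/

open Metric Set MeasureTheory Pool.Agent.HexNear

namespace Pool.Agent.Results.MP_20f220_co.FullNearPolygons

theorem result (s : Finset Pl) (hs : s.card ≤ 6)
    (hint : (interior (convexHull ℝ (s : Set Pl))).Nonempty)
    (hnt : ¬ ∃ F : Set (Set Pl), IsTiling (convexHull ℝ (s : Set Pl)) F univ)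
    (hno : ∀ t : Finset Pl, t.card ≤ 8 → ∀ F : Set (Set Pl),
      IsTiling (convexHull ℝ (s : Set Pl)) F (convexHull ℝ (t : Set Pl)) → F.Subsingleton) :
    ∃ ε > 0, ∃ c > 0, ∃ N : ℕ,
      ∀ K : Set Pl, IsCompact K → Convex ℝ K → K.Nonempty →
        hausdorffDist K (convexHull ℝ (s : Set Pl)) ≤ ε →
      ∀ D : Set Pl, IsCompact D → Convex ℝ D →
      ∀ n : ℕ, 2 ≤ n → ∀ φ : Fin n → (Pl ≃ᵢ Pl), D ⊆ ⋃ i, φ i '' K →
        (Oct D ∨ N ≤ n) → area D + c * n ≤ n * hexArea K := by
  obtain ⟨ε, hε, c, hc, N, h⟩ := main s hs hint hnt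
  refine ⟨ε, hε, c, hc, N, ?_⟩
  intro K hK hKv hKne hd D hD hDv n hn φ hcov hcase
  apply h K hK hKv hKne hd D hD hDv n hn φ hcov
  rcases hcase with h1 | h1
  · exact Or.inr ⟨hno, h1⟩
  · exact Or.inl h1

end Pool.Agent.Results.MP_20f220_co.FullNearPolygons
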