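import Pool.Agent.Lib.MP_20f220_co.Sharp

/-! The hexagon bound, crossing copies allowed, near every convex polygon with at most six sides
whose angles have no relation with sum `π` and only relations with three terms with sum `2π`. -/

open Metric Set MeasureTheory Pool.Agent.HexNear

namespace Pool.Agent.Results.MP_20f220_co.GenericPolygons

theorem result (s : Finset Pl) (hs : s.card ≤ 6)
    (hint : (interior (convexHull ℝ (s : Set Pl))).Nonempty)
    (hang : ∀ v ∈ s, ang (convexHull ℝ (s : Set Pl)) v < Real.pi)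
    (hhalf : ∀ (k : ℕ) (f : Fin k → Pl), (∀ i, f i ∈ s) →
      ∑ i, ang (convexHull ℝ (s : Set Pl)) (f i) ≠ Real.pi)
    (hfull : ∀ (k : ℕ) (f : Fin k → Pl), (∀ i, f i ∈ s) →
      ∑ i, ang (convexHull ℝ (s : Set Pl)) (f i) = 2 * Real.pi → k = 3) :
    ∃ ε > 0, ∃ N : ℕ, ∀ K : Set Pl, IsCompact K → Convex ℝ K → K.Nonempty →
        hausdorffDist K (convexHull ℝ (s : Set Pl)) ≤ ε →
      ∀ D : Set Pl, IsCompact D → Convex ℝ D →
      ∀ n : ℕ, 2 ≤ n → ∀ φ : Fin n → (Pl ≃ᵢ Pl), D ⊆ ⋃ i, φ i '' K →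
        (N ≤ n ∨ (NoOctagon (convexHull ℝ (s : Set Pl)) ∧ Oct D)) →
        area D ≤ n * hexArea K :=
  sharp_gen s hs ⟨hint, hang, hhalf, hfull⟩ _ Oct (fun h8 z h0 => FewFor_noOctagon s h8 z h0)

end Pool.Agent.Results.MP_20f220_co.GenericPolygons
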