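import Pool.Agent.Lib.MP_20f220_co.All

/-! The hexagon bound, crossing copies allowed, for all large `n`, near every convex polygon with
at most six vertices that does not tile the plane. -/

open Metric Set MeasureTheory Pool.Agent.HexNear

namespace Pool.Agent.Results.MP_20f220_co.NonTilingPolygons

theorem result (s : Finset Pl) (hs : s.card ≤ 6)
    (hint : (interior (convexHull ℝ (s : Set Pl))).Nonempty)
    (hnt : ¬ ∃ F : Set (Set Pl), IsTiling (convexHull ℝ (s : Set Pl)) F univ) :
    ∃ ε > 0, ∃ c > 0, ∃ N : ℕ,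
      ∀ K : Set Pl, IsCompact K → Convex ℝ K → K.Nonempty →
        hausdorffDist K (convexHull ℝ (s : Set Pl)) ≤ ε →
      ∀ D : Set Pl, IsCompact D → Convex ℝ D →
      ∀ n : ℕ, N ≤ n → ∀ φ : Fin n → (Pl ≃ᵢ Pl), D ⊆ ⋃ i, φ i '' K →
        area D + c * n ≤ n * hexArea K := by
  obtain ⟨ε, hε, c, hc, N, h⟩ := main s hs hint hnt
  refine ⟨ε, hε, c, hc, max N 2, ?_⟩
  intro K hK hKv hKne hd D hD hDv n hn φ hcov
  exact h K hK hKv hKne hd D hD hDv n ((le_max_right _ _).trans hn) φ hcov
    (Or.inl ((le_max_left _ _).trans hn))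

end Pool.Agent.Results.MP_20f220_co.NonTilingPolygons
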