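import Pool.Agent.Lib.MP_20f220_co.Sharp

/-! The hexagon bound, crossing copies allowed, for all `n ≥ 2` and all convex domains, near every
convex pentagon or hexagon all of whose angles are obtuse. -/

open Metric Set MeasureTheory Pool.Agent.HexNear

namespace Pool.Agent.Results.MP_20f220_co.ObtuseSharp

theorem result (s : Finset Pl) (hs : s.card ≤ 6) (hne : s.Nonempty)
    (hang : ∀ v ∈ s, Real.pi / 2 < ang (convexHull ℝ (s : Set Pl)) v ∧
      ang (convexHull ℝ (s : Set Pl)) v < Real.pi) :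
    ∃ ε > 0, ∀ K : Set Pl, IsCompact K → Convex ℝ K → K.Nonempty →
        hausdorffDist K (convexHull ℝ (s : Set Pl)) ≤ ε →
      ∀ D : Set Pl, IsCompact D → Convex ℝ D →
      ∀ n : ℕ, 2 ≤ n → ∀ φ : Fin n → (Pl ≃ᵢ Pl), D ⊆ ⋃ i, φ i '' K →
        area D ≤ n * hexArea K := by
  have hag := AngleGeneric.of_obtuse s hne hang
  have hnc := noConvex_of_obtuse s hag.int_ne (fun v hv => (hang v hv).1)
  obtain ⟨ε, hε, N, h⟩ := sharp_gen s hs hag True (fun _ => True)
    (fun _ z h0 => FewFor_noConvex s hnc z h0)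
  exact ⟨ε, hε, fun K hK hKv hKne hd D hD hDv n hn φ hcov =>
    h K hK hKv hKne hd D hD hDv n hn φ hcov (Or.inr ⟨trivial, trivial⟩)⟩

end Pool.Agent.Results.MP_20f220_co.ObtuseSharp
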